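import Pool.Agent.H7.TRI.Stmts

/-!
# Board `tri`, row `ISB`
-/

set_option linter.unusedVariables false

open Finset

namespace Pool.TRI

theorem ISB_thm (h1 : EXFStmt) (h2 : OUTStmt) (h3 : ISUStmt) (h4 : RCHStmt) : ISBStmt := by
  classical
  intro V _ _ G d m H C hC w hw y hy hyC
  obtain ⟨hwX, w', hw'X, hw'w, hw'n, hCw, hI⟩ := h3 V G d m H C hC w hw
  obtain ⟨hwC, hdf, -⟩ := mem_Iso.1 hw
  obtain ⟨ho1, ho2, -, ho4⟩ := h2 V G d m H C hC w hwX
  rw [hdf] at ho1 ho2
  have hyD : y ∈ nb G w \ C := mem_sdiff.2 ⟨hy, hyC⟩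
  have hD1 : (nb G w \ C).card = 1 := le_antisymm ho2 (card_pos.2 ⟨y, hyD⟩)
  have hDy : nb G w \ C = {y} := by
    obtain ⟨a, ha⟩ := card_eq_one.1 hD1
    rw [ha] at hyD ⊢
    rw [mem_singleton.1 hyD]
  refine ⟨hDy, ?_⟩
  have hnw : (nb G w).card = d := by omega
  have hsymm : ∀ u v : V, u ∈ nb G v → v ∈ nb G u := by
    intro u v h
    exact mem_nb.2 (mem_nb.1 h).symm
  obtain ⟨X, hX⟩ : ∃ X : Finset V, X = ((XX G C).erase w).erase w' := ⟨_, rfl⟩
  have hXm : ∀ u, u ∈ X ↔ u ≠ w' ∧ u ≠ w ∧ u ∈ XX G C := by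
    intro u
    rw [hX, mem_erase, mem_erase]
  have hXc : X.card + 2 = (XX G C).card := by
    have e1 : w' ∈ (XX G C).erase w := mem_erase.2 ⟨hw'w, hw'X⟩
    have e2 := card_erase_add_one e1
    have e3 := card_erase_add_one hwX
    rw [hX]
    omega
  have hSX : Disjoint (SS G C) X := by
    rw [Finset.disjoint_left]
    intro u hu hu'
    exact (mem_XX.1 ((hXm u).1 hu').2.2).2 (mem_SS.1 hu).2
  have hyS : y ∉ SS G C ∪ X := by
    intro h
    rcases mem_union.1 h with h | h
    · exact hyC (mem_SS.1 h).1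
    · exact hyC (mem_XX.1 ((hXm y).1 h).2.2).1
  have hnb : nb G w = insert y (SS G C ∪ X) := by
    ext u
    rw [mem_insert, mem_union, hXm]
    constructor
    · intro hu
      by_cases huC : u ∈ C
      · right
        by_cases hcn : cn G u = C
        · left
          exact mem_SS.2 ⟨huC, hcn⟩
        · right
          refine ⟨?_, ?_, mem_XX.2 ⟨huC, hcn⟩⟩
          · rintro rfl
            exact hw'n hu
          · rintro rfl
            exact self_notMem_nb u hu
      · left
        have : u ∈ nb G w \ C := mem_sdiff.2 ⟨hu, huC⟩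
        rw [hDy] at this
        exact mem_singleton.1 this
    · rintro (rfl | hu | ⟨a, b, c⟩)
      · exact hy
      · exact (ho4 u hu).1
      · exact (hI u c b a).1
  obtain ⟨A, hA⟩ : ∃ A : Finset V, A = X.filter (fun u => u ∈ nb G y) := ⟨_, rfl⟩
  have hAm : ∀ u, u ∈ A ↔ u ∈ X ∧ u ∈ nb G y := by
    intro u
    rw [hA, mem_filter]
  have hcd : nb G w ∩ nb G y = A := by
    ext u
    rw [mem_inter, hAm, hnb, mem_insert, mem_union]
    constructor
    · rintro ⟨rfl | hu | hu, hu'⟩
      · exact absurd hu' (self_notMem_nb u)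
      · exfalso
        apply hyC
        rw [← (mem_SS.1 hu).2]
        exact mem_cn.2 (Or.inr (mem_nb.1 (hsymm _ _ hu')))
      · exact ⟨hu, hu'⟩
    · rintro ⟨hu, hu'⟩
      exact ⟨Or.inr (Or.inr hu), hu'⟩
  have hcdc : cd G w y = A.card := by
    unfold cd
    rw [hcd]
  have hAX : A.card ≤ X.card := by
    rw [hA]
    exact card_filter_le _ _
  have hwy : w ∈ nb G y := hsymm _ _ hy
  have hwA : w ∉ A := fun h => ((hXm w).1 ((hAm w).1 h).1).2.1 rfl
  obtain ⟨e, he0, he1, hec⟩ : ∃ e : ℤ, 0 ≤ e ∧ e ≤ 1 ∧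
      ((nb G y ∩ XX G C).card : ℤ) = A.card + 1 + e := by
    by_cases h : w' ∈ nb G y
    · refine ⟨1, by norm_num, le_rfl, ?_⟩
      have e1 : nb G y ∩ XX G C = insert w' (insert w A) := by
        ext u
        rw [mem_inter, mem_insert, mem_insert, hAm, hXm]
        constructor
        · rintro ⟨a, b⟩
          by_cases hu1 : u = w'
          · exact Or.inl hu1
          by_cases hu2 : u = w
          · exact Or.inr (Or.inl hu2)
          · exact Or.inr (Or.inr ⟨⟨hu1, hu2, b⟩, a⟩)
        · rintro (rfl | rfl | ⟨⟨_, _, b⟩, a⟩)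
          · exact ⟨h, hw'X⟩
          · exact ⟨hwy, hwX⟩
          · exact ⟨a, b⟩
      have e2 : w' ∉ insert w A := by
        rw [mem_insert, not_or]
        exact ⟨hw'w, fun h => ((hXm w').1 ((hAm w').1 h).1).1 rfl⟩
      rw [e1, card_insert_of_notMem e2, card_insert_of_notMem hwA]
      push_cast
      ring
    · refine ⟨0, le_rfl, by norm_num, ?_⟩
      have e1 : nb G y ∩ XX G C = insert w A := by
        ext u
        rw [mem_inter, mem_insert, hAm, hXm]
        constructor
        · rintro ⟨a, b⟩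
          by_cases hu2 : u = w
          · exact Or.inl hu2
          · refine Or.inr ⟨⟨?_, hu2, b⟩, a⟩
            rintro rfl
            exact h a
        · rintro (rfl | ⟨⟨_, _, b⟩, a⟩)
          · exact ⟨hwy, hwX⟩
          · exact ⟨a, b⟩
      rw [e1, card_insert_of_notMem hwA]
      push_cast
      ring
  have het : et G d w y = (d : ℤ) - 1 - A.card := by
    unfold et
    rw [hcdc]
  have hxx : xx G C = (X.card : ℤ) + 2 := by
    unfold xx
    rw [← hXc]
    push_cast
    ring
  have hAX' : (A.card : ℤ) ≤ X.card := by exact_mod_cast hAX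
  refine ⟨e, he0, he1, ?_, ?_, ?_⟩
  · rw [hec, hxx]
    linarith
  · rw [hec, het]
    ring
  · have hex := h1 V G d w
    rw [hnw, sub_self, zero_mul, add_zero, hnb, sum_insert hyS, sum_union hSX] at hex
    have s1 : ∑ u ∈ SS G C, (et G d w u - 1) = 0 := by
      refine sum_eq_zero fun u hu => ?_
      rw [(ho4 u hu).2, hdf]
      norm_num
    have s2 : ((X.card : ℤ) - A.card) ≤ ∑ u ∈ X, (et G d w u - 1) := by
      have e1 : ∑ u ∈ X, (if u ∈ nb G y then (0 : ℤ) else 1) = (X.card : ℤ) - A.card := by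
        have e2 : ∀ u ∈ X, (if u ∈ nb G y then (0 : ℤ) else 1) =
            1 - (if u ∈ nb G y then (1 : ℤ) else 0) := by
          intro u _
          by_cases h : u ∈ nb G y
          · rw [if_pos h, if_pos h, sub_self]
          · rw [if_neg h, if_neg h, sub_zero]
        rw [sum_congr rfl e2, sum_sub_distrib, ← sum_filter, ← hA]
        simp
      rw [← e1]
      refine sum_le_sum fun u hu => ?_
      obtain ⟨a, b, c⟩ := (hXm u).1 hu
      obtain ⟨-, f1, f2⟩ := hI u c b a
      rw [hD1] at f1 f2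
      push_cast at f1 f2
      by_cases h : u ∈ nb G y
      · rw [if_pos h]
        linarith
      · rw [if_neg h]
        have := f2 y hy hyC (fun h' => h (hsymm _ _ h'))
        linarith
    rw [hex, s1, het, hec, hxx]
    linarith

end Pool.TRI
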